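import Mathlib

set_option autoImplicit false

open Set Filter Topology Metric MeasureTheory
open scoped ContDiff ComplexOrder

namespace Pool.Agent.Results.MP_8f0dee_an.LogPole

/-- complex n-space -/
abbrev Cn (n : ℕ) : Type := Fin n → ℂ

/-- the coordinate vectors e_j and i e_j -/
noncomputable def eR {n : ℕ} (j : Fin n) : Cn n := Pi.single j (1 : ℂ)

noncomputable def eI {n : ℕ} (j : Fin n) : Cn n := Pi.single j Complex.I

/-- second derivative D^2 f (z)(v,w) -/
noncomputable def hess {n : ℕ} (f : Cn n → ℝ) (z v w : Cn n) : ℝ :=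
  fderiv ℝ (fderiv ℝ f) z v w

/-- The complex Hessian, with entries ∂²f/∂z_j∂\bar z_l. -/
noncomputable def complexHessian {n : ℕ} (f : Cn n → ℝ) (z : Cn n) : Matrix (Fin n) (Fin n) ℂ :=
  Matrix.of fun j l => (1 / 4 : ℂ) *
    (((hess f z (eR j) (eR l) + hess f z (eI j) (eI l) : ℝ) : ℂ) +
      Complex.I * ((hess f z (eR j) (eI l) - hess f z (eI j) (eR l) : ℝ) : ℂ))

/-- the Laplacian -/
noncomputable def lap {n : ℕ} (f : Cn n → ℝ) (z : Cn n) : ℝ :=
  ∑ j, (hess f z (eR j) (eR j) + hess f z (eI j) (eI j))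

/-- |z|^2 -/
noncomputable def nsq {n : ℕ} (z : Cn n) : ℝ := ∑ j, ‖z j‖ ^ 2

/-! ### Linear algebra -/

theorem log_det_le {n : ℕ} (H : Matrix (Fin n) (Fin n) ℂ) (hH : H.PosDef) (c : ℝ) (hc : 0 < c) :
    Real.log H.det.re ≤ H.trace.re / c + n * (Real.log c - 1) := by
  have hdet : H.det.re = ∏ i, hH.isHermitian.eigenvalues i := by
    rw [hH.isHermitian.det_eq_prod_eigenvalues, ← RCLike.ofReal_prod]
    exact RCLike.ofReal_re (K := ℂ) _
  have htr : H.trace.re = ∑ i, hH.isHermitian.eigenvalues i := by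
    rw [hH.isHermitian.trace_eq_sum_eigenvalues]
    simp
  rw [hdet, htr, Real.log_prod (fun i _ => (hH.eigenvalues_pos i).ne')]
  have h1 : ∀ i, Real.log (hH.isHermitian.eigenvalues i) ≤
      hH.isHermitian.eigenvalues i / c + (Real.log c - 1) := by
    intro i
    have hpos := hH.eigenvalues_pos i
    have h2 := Real.log_le_sub_one_of_pos (div_pos hpos hc)
    rw [Real.log_div hpos.ne' hc.ne'] at h2
    linarith
  calc ∑ i, Real.log (hH.isHermitian.eigenvalues i)
      ≤ ∑ i, (hH.isHermitian.eigenvalues i / c + (Real.log c - 1)) :=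
        Finset.sum_le_sum fun i _ => h1 i
    _ = (∑ i, hH.isHermitian.eigenvalues i) / c + n * (Real.log c - 1) := by
        rw [Finset.sum_add_distrib, Finset.sum_div]; simp; ring

theorem trace_complexHessian {n : ℕ} (f : Cn n → ℝ) (z : Cn n) :
    (complexHessian f z).trace.re = lap f z / 4 := by
  unfold complexHessian lap
  rw [Matrix.trace, Complex.re_sum, Finset.sum_div]
  apply Finset.sum_congr rfl
  intro j _
  simp [Matrix.diag]
  ring

theorem diag_complexHessian {n : ℕ} (f : Cn n → ℝ) (z : Cn n) (j : Fin n) :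
    (complexHessian f z j j).re = (hess f z (eR j) (eR j) + hess f z (eI j) (eI j)) / 4 := by
  unfold complexHessian
  simp
  ring

/-! ### The second derivative at a local maximum -/

theorem hasDerivAt_line_of {n : ℕ} {f : Cn n → ℝ} {z v : Cn n} {f' : Cn n →L[ℝ] ℝ} {t : ℝ}
    (hf : HasFDerivAt f f' (z + t • v)) : HasDerivAt (fun t : ℝ => f (z + t • v)) (f' v) t := by
  have h2 : HasDerivAt (fun t : ℝ => z + t • v) v t := by
    have := ((hasDerivAt_id t).smul_const v).const_add z
    simpa using this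
  exact hf.comp_hasDerivAt t h2

theorem hess_nonpos_of_localMax {n : ℕ} (f : Cn n → ℝ) (z v : Cn n) (hf : ContDiffAt ℝ 2 f z)
    (hmax : IsLocalMax f z) : hess f z v v ≤ 0 := by
  by_contra hcon
  push Not at hcon
  set g : ℝ → ℝ := fun t => f (z + t • v) with hg
  have hline : Continuous (fun t : ℝ => z + t • v) := by fun_prop
  have hline0 : Tendsto (fun t : ℝ => z + t • v) (𝓝 0) (𝓝 z) := by
    simpa using hline.tendsto 0
  have hd1 : ∀ᶠ y in 𝓝 z, DifferentiableAt ℝ f y :=
    (hf.eventually (by simp)).mono fun y hy => hy.differentiableAt (by norm_num)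
  have hgd : ∀ᶠ t in 𝓝 (0 : ℝ), deriv g t = fderiv ℝ f (z + t • v) v := by
    filter_upwards [hline0.eventually hd1] with t ht
    exact (hasDerivAt_line_of ht.hasFDerivAt).deriv
  have hd2 : HasFDerivAt (fderiv ℝ f) (fderiv ℝ (fderiv ℝ f) z) z := by
    have : ContDiffAt ℝ 1 (fderiv ℝ f) z := hf.fderiv_right (by norm_num)
    exact (this.differentiableAt (by norm_num)).hasFDerivAt
  have hgd2 : HasDerivAt (fun t : ℝ => fderiv ℝ f (z + t • v) v) (hess f z v v) 0 := by
    have h1 : HasDerivAt (fun t : ℝ => z + t • v) v 0 := by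
      have := ((hasDerivAt_id (0 : ℝ)).smul_const v).const_add z
      simpa using this
    have h2 : HasFDerivAt (fderiv ℝ f) (fderiv ℝ (fderiv ℝ f) z) (z + (0 : ℝ) • v) := by
      simpa using hd2
    have h3 := h2.comp_hasDerivAt (0 : ℝ) h1
    exact h3.clm_apply (hasDerivAt_const 0 v) |>.congr_deriv (by simp [hess])
  have hdd : deriv (deriv g) 0 = hess f z v v := by
    have : deriv g =ᶠ[𝓝 0] fun t : ℝ => fderiv ℝ f (z + t • v) v := hgd
    rw [this.deriv_eq, hgd2.deriv]
  have hgmax : IsLocalMax g 0 := by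
    filter_upwards [hline0.eventually hmax] with t ht
    simpa [hg] using ht
  have hg0 : deriv g 0 = 0 := hgmax.deriv_eq_zero
  have hgc : ContinuousAt g 0 := by
    have h1 : ContinuousAt f (z + (0 : ℝ) • v) := by simpa using hf.continuousAt
    exact ContinuousAt.comp (f := fun t : ℝ => z + t • v) h1 hline.continuousAt
  have hgmin : IsLocalMin g 0 := isLocalMin_of_deriv_deriv_pos (by rw [hdd]; exact hcon) hg0 hgc
  have hconst : g =ᶠ[𝓝 0] fun _ => g 0 := by
    filter_upwards [hgmax, hgmin] with t h1 h2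
    exact le_antisymm h1 h2
  have hconst2 : deriv g =ᶠ[𝓝 0] fun _ => 0 := by
    have := hconst.deriv
    refine this.trans ?_
    simp
  rw [hconst2.deriv_eq] at hdd
  simp at hdd
  linarith

/-! ### Positive parts of powers -/

theorem hasDerivAt_posPow (k : ℕ) (hk : 1 ≤ k) (x : ℝ) :
    HasDerivAt (fun x : ℝ => (max x 0) ^ (k + 1)) (((k : ℝ) + 1) * (max x 0) ^ k) x := by
  rcases lt_trichotomy x 0 with h | h | h
  · have h1 : (fun x : ℝ => (max x 0) ^ (k + 1)) =ᶠ[𝓝 x] fun _ => 0 := by
      filter_upwards [gt_mem_nhds h] with y hy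
      rw [max_eq_right hy.le, zero_pow (by omega)]
    rw [max_eq_right h.le, zero_pow (by omega), mul_zero]
    exact (hasDerivAt_const x (0 : ℝ)).congr_of_eventuallyEq h1
  · subst h
    rw [max_self, zero_pow (by omega), mul_zero, hasDerivAt_iff_isLittleO]
    simp only [max_self, sub_zero, smul_zero, ne_eq, Nat.add_eq_zero_iff, one_ne_zero, and_false,
      not_false_eq_true, zero_pow]
    have h1 : (fun x : ℝ => x ^ (k + 1)) =o[𝓝 0] fun x => x := Asymptotics.isLittleO_pow_id (by omega)
    refine (Asymptotics.IsBigO.of_bound 1 ?_).trans_isLittleO h1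
    apply Filter.Eventually.of_forall
    intro y
    rw [one_mul, norm_pow, norm_pow]
    apply pow_le_pow_left₀ (norm_nonneg _)
    rw [Real.norm_eq_abs, Real.norm_eq_abs, abs_of_nonneg (le_max_right _ _)]
    exact max_le (le_abs_self _) (abs_nonneg _)
  · have h1 : (fun x : ℝ => (max x 0) ^ (k + 1)) =ᶠ[𝓝 x] fun x => x ^ (k + 1) := by
      filter_upwards [lt_mem_nhds h] with y hy
      rw [max_eq_left hy.le]
    rw [max_eq_left h.le]
    have h2 := (hasDerivAt_pow (k + 1) x).congr_of_eventuallyEq h1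
    simpa using h2

/-! ### The test function -/

/-- real inner product on C^n -/
noncomputable def ip {n : ℕ} (z v : Cn n) : ℝ := ∑ j, ((z j).re * (v j).re + (z j).im * (v j).im)

theorem ip_self {n : ℕ} (z : Cn n) : ip z z = nsq z := by
  unfold ip nsq
  apply Finset.sum_congr rfl
  intro j _
  rw [← Complex.normSq_eq_norm_sq, Complex.normSq_apply]

theorem ip_comm {n : ℕ} (z v : Cn n) : ip z v = ip v z := by
  unfold ip
  apply Finset.sum_congr rfl
  intro j _
  ring

/-- the pairing with z as a continuous linear map -/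
noncomputable def ipL {n : ℕ} (z : Cn n) : Cn n →L[ℝ] ℝ :=
  ∑ j, ((z j).re • (Complex.reCLM.comp (ContinuousLinearMap.proj (R := ℝ) (φ := fun _ : Fin n => ℂ) j)) +
    (z j).im • (Complex.imCLM.comp (ContinuousLinearMap.proj (R := ℝ) (φ := fun _ : Fin n => ℂ) j)))

theorem ipL_apply {n : ℕ} (z v : Cn n) : ipL z v = ip z v := by
  unfold ipL ip
  simp

theorem nsq_eq {n : ℕ} (z : Cn n) : nsq z = ∑ j, ((z j).re ^ 2 + (z j).im ^ 2) := by
  unfold nsq
  apply Finset.sum_congr rfl
  intro j _
  rw [← Complex.normSq_eq_norm_sq, Complex.normSq_apply]; ring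

theorem nsq_nonneg {n : ℕ} (z : Cn n) : 0 ≤ nsq z := by unfold nsq; positivity

theorem nsq_hasFDerivAt {n : ℕ} (z : Cn n) : HasFDerivAt (nsq (n := n)) ((2 : ℝ) • ipL z) z := by
  have h0 : (nsq (n := n)) = fun z => ∑ j, ((z j).re ^ 2 + (z j).im ^ 2) := funext nsq_eq
  rw [h0]
  have h1 : ∀ j ∈ (Finset.univ : Finset (Fin n)), HasFDerivAt
      (fun z : Cn n => (z j).re ^ 2 + (z j).im ^ 2)
      ((2 : ℝ) • ((z j).re • (Complex.reCLM.comp (ContinuousLinearMap.proj (R := ℝ) (φ := fun _ : Fin n => ℂ) j)) +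
        (z j).im • (Complex.imCLM.comp (ContinuousLinearMap.proj (R := ℝ) (φ := fun _ : Fin n => ℂ) j)))) z := by
    intro j _
    have hre : HasFDerivAt (fun z : Cn n => (z j).re)
        (Complex.reCLM.comp (ContinuousLinearMap.proj (R := ℝ) (φ := fun _ : Fin n => ℂ) j)) z :=
      (Complex.reCLM.comp (ContinuousLinearMap.proj (R := ℝ) (φ := fun _ : Fin n => ℂ) j)).hasFDerivAt
    have him : HasFDerivAt (fun z : Cn n => (z j).im)
        (Complex.imCLM.comp (ContinuousLinearMap.proj (R := ℝ) (φ := fun _ : Fin n => ℂ) j)) z :=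
      (Complex.imCLM.comp (ContinuousLinearMap.proj (R := ℝ) (φ := fun _ : Fin n => ℂ) j)).hasFDerivAt
    have h2 := (hre.pow 2).add (him.pow 2)
    refine h2.congr_fderiv ?_
    ext v
    simp
    ring
  have h2 := HasFDerivAt.fun_sum h1
  refine h2.congr_fderiv ?_
  unfold ipL
  rw [Finset.smul_sum]

theorem nsq_continuous {n : ℕ} : Continuous (nsq (n := n)) := by
  unfold nsq; fun_prop

theorem ip_hasFDerivAt {n : ℕ} (v z : Cn n) : HasFDerivAt (fun z : Cn n => ip z v) (ipL v) z := by
  have h : (fun z : Cn n => ip z v) = fun z => ipL v z := by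
    funext z; rw [ipL_apply, ip_comm]
  rw [h]; exact (ipL v).hasFDerivAt

/-- the cut-off (1 - |z|^2/R)_+^3, with R = r^2 -/
noncomputable def eta {n : ℕ} (R : ℝ) (z : Cn n) : ℝ := (max (1 - nsq z / R) 0) ^ 3

theorem q_hasFDerivAt {n : ℕ} (R : ℝ) (z : Cn n) :
    HasFDerivAt (fun z : Cn n => 1 - nsq z / R) (-(2 / R) • ipL z) z := by
  have h1 := ((nsq_hasFDerivAt z).mul_const (1 / R)).const_sub 1
  have h2 : (fun z : Cn n => 1 - nsq z / R) = fun z => 1 - nsq z * (1 / R) := by
    funext z; ring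
  rw [h2]
  refine h1.congr_fderiv ?_
  ext v
  simp
  ring

theorem eta_hasFDerivAt {n : ℕ} (R : ℝ) (z : Cn n) :
    HasFDerivAt (eta (n := n) R) ((-(6 / R) * (max (1 - nsq z / R) 0) ^ 2) • ipL z) z := by
  have h1 := (hasDerivAt_posPow 2 (by norm_num) (1 - nsq z / R)).comp_hasFDerivAt z
    (q_hasFDerivAt R z)
  refine h1.congr_fderiv ?_
  ext v
  simp
  ring

theorem eta_fderiv {n : ℕ} (R : ℝ) (v : Cn n) :
    (fun z : Cn n => fderiv ℝ (eta R) z v) =
      fun z => -(6 / R) * (max (1 - nsq z / R) 0) ^ 2 * ip z v := by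
  funext z
  rw [(eta_hasFDerivAt R z).fderiv]
  simp [ipL_apply]

theorem eta_fderiv_hasFDerivAt {n : ℕ} (R : ℝ) (v z : Cn n) :
    HasFDerivAt (fun z : Cn n => fderiv ℝ (eta R) z v)
      ((24 / R ^ 2 * (max (1 - nsq z / R) 0) * ip z v) • ipL z -
        (6 / R * (max (1 - nsq z / R) 0) ^ 2) • ipL v) z := by
  rw [eta_fderiv]
  have h1 := (hasDerivAt_posPow 1 (by norm_num) (1 - nsq z / R)).comp_hasFDerivAt z
    (q_hasFDerivAt R z)
  have h2 := (h1.const_mul (-(6 / R))).mul (ip_hasFDerivAt v z)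
  refine h2.congr_fderiv ?_
  ext w
  simp
  ring

theorem hess_eta {n : ℕ} (R : ℝ) (v z : Cn n) :
    fderiv ℝ (fun z : Cn n => fderiv ℝ (eta R) z v) z v =
      24 / R ^ 2 * (max (1 - nsq z / R) 0) * ip z v ^ 2 -
        6 / R * (max (1 - nsq z / R) 0) ^ 2 * nsq v := by
  rw [(eta_fderiv_hasFDerivAt R v z).fderiv]
  simp [ipL_apply, ip_self]
  ring

theorem ip_eR {n : ℕ} (z : Cn n) (j : Fin n) : ip z (eR j) = (z j).re := by
  unfold ip eR
  rw [Finset.sum_eq_single j]
  · simp
  · intro k _ hk; simp [Pi.single_eq_of_ne hk]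
  · simp

theorem ip_eI {n : ℕ} (z : Cn n) (j : Fin n) : ip z (eI j) = (z j).im := by
  unfold ip eI
  rw [Finset.sum_eq_single j]
  · simp
  · intro k _ hk; simp [Pi.single_eq_of_ne hk]
  · simp

theorem nsq_eR {n : ℕ} (j : Fin n) : nsq (eR j) = 1 := by
  rw [← ip_self, ip_eR]; simp [eR]

theorem nsq_eI {n : ℕ} (j : Fin n) : nsq (eI j) = 1 := by
  rw [← ip_self, ip_eI]; simp [eI]

/-- the Laplacian of the cut-off, as a sum of iterated directional derivatives -/
noncomputable def lapEta {n : ℕ} (R : ℝ) (z : Cn n) : ℝ :=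
  ∑ j, (fderiv ℝ (fun z : Cn n => fderiv ℝ (eta R) z (eR j)) z (eR j) +
    fderiv ℝ (fun z : Cn n => fderiv ℝ (eta R) z (eI j)) z (eI j))

theorem lapEta_eq {n : ℕ} (R : ℝ) (z : Cn n) :
    lapEta R z = 24 / R ^ 2 * (max (1 - nsq z / R) 0) * nsq z -
      12 * n / R * (max (1 - nsq z / R) 0) ^ 2 := by
  unfold lapEta
  simp_rw [hess_eta, ip_eR, ip_eI, nsq_eR, nsq_eI]
  have h : ∀ j : Fin n, (24 / R ^ 2 * (max (1 - nsq z / R) 0) * (z j).re ^ 2 -
        6 / R * (max (1 - nsq z / R) 0) ^ 2 * 1 +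
      (24 / R ^ 2 * (max (1 - nsq z / R) 0) * (z j).im ^ 2 -
        6 / R * (max (1 - nsq z / R) 0) ^ 2 * 1)) =
      24 / R ^ 2 * (max (1 - nsq z / R) 0) * ((z j).re ^ 2 + (z j).im ^ 2) -
        12 / R * (max (1 - nsq z / R) 0) ^ 2 := by
    intro j; ring
  simp_rw [h]
  rw [Finset.sum_sub_distrib, ← Finset.mul_sum, ← nsq_eq]
  simp
  ring

/-- lower bound for the Laplacian of the cut-off -/
theorem lapEta_ge {n : ℕ} (R : ℝ) (hR : 0 < R) (z : Cn n) :
    -(6 * ((n : ℝ) + 2) ^ 2 / R) * eta R z ≤ lapEta R z := by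
  rw [lapEta_eq]
  unfold eta
  set q := 1 - nsq z / R with hq
  have hN : nsq z = R * (1 - q) := by rw [hq]; field_simp; ring
  rcases le_total q 0 with h | h
  · rw [max_eq_right h]; simp
  · rw [max_eq_left h, hN]
    have h1 : 24 / R ^ 2 * q * (R * (1 - q)) - 12 * n / R * q ^ 2 =
        (12 * q / R) * (2 - ((n : ℝ) + 2) * q) := by
      field_simp; ring
    have h2 : -(6 * ((n : ℝ) + 2) ^ 2 / R) * q ^ 3 = -((12 * q / R) * (((n : ℝ) + 2) ^ 2 * q ^ 2 / 2)) := by
      field_simp; ring
    rw [h1, h2]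
    have h3 : 0 ≤ 12 * q / R := by positivity
    have h4 : -(((n : ℝ) + 2) ^ 2 * q ^ 2 / 2) ≤ 2 - ((n : ℝ) + 2) * q := by
      nlinarith [sq_nonneg (((n : ℝ) + 2) * q - 1)]
    nlinarith [mul_le_mul_of_nonneg_left h4 h3]

/-! ### Cut-off integrals -/

/-- the open unit ball -/
def B (n : ℕ) : Set (Cn n) := {z | nsq z < 1}

theorem B_open (n : ℕ) : IsOpen (B n) := isOpen_lt nsq_continuous continuous_const

/-- closed ball of squared radius R -/
def KR (n : ℕ) (R : ℝ) : Set (Cn n) := {z | nsq z ≤ R}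

theorem KR_closed (n : ℕ) (R : ℝ) : IsClosed (KR n R) := isClosed_le nsq_continuous continuous_const

theorem norm_sq_le_nsq {n : ℕ} (z : Cn n) (j : Fin n) : ‖z j‖ ^ 2 ≤ nsq z := by
  unfold nsq
  exact Finset.single_le_sum (f := fun j => ‖z j‖ ^ 2) (fun i _ => sq_nonneg _) (Finset.mem_univ j)

theorem KR_compact (n : ℕ) (R : ℝ) : IsCompact (KR n R) := by
  apply Metric.isCompact_of_isClosed_isBounded (KR_closed n R)
  rw [isBounded_iff_forall_norm_le]
  refine ⟨Real.sqrt R, fun z hz => ?_⟩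
  rw [pi_norm_le_iff_of_nonneg (Real.sqrt_nonneg _)]
  intro j
  apply Real.le_sqrt_of_sq_le
  exact (norm_sq_le_nsq z j).trans hz

theorem KR_subset_B {n : ℕ} {R : ℝ} (hR : R < 1) : KR n R ⊆ B n := fun _ hz => lt_of_le_of_lt hz hR

theorem tsupport_subset_KR {n : ℕ} {R : ℝ} (g : Cn n → ℝ) (hg : ∀ z, R ≤ nsq z → g z = 0) :
    tsupport g ⊆ KR n R := by
  apply closure_minimal _ (KR_closed n R)
  intro z hz
  by_contra hcon
  have : ¬ nsq z ≤ R := hcon
  push Not at this
  exact hz (hg z this.le)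

theorem mul_cutoff {n : ℕ} {R : ℝ} (hR : R < 1) (f g : Cn n → ℝ) (hf : ContinuousOn f (B n))
    (hgc : Continuous g) (hg : ∀ z, R ≤ nsq z → g z = 0) :
    Continuous (fun z => f z * g z) ∧ HasCompactSupport (fun z => f z * g z) := by
  have h1 : tsupport (fun z => f z * g z) ⊆ KR n R :=
    tsupport_mul_subset_right.trans (tsupport_subset_KR g hg)
  refine ⟨?_, ?_⟩
  · exact (hf.mul hgc.continuousOn).continuous_of_tsupport_subset (B_open n)
      (h1.trans (KR_subset_B hR))
  · exact (KR_compact n R).of_isClosed_subset (isClosed_tsupport _) h1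

theorem integrable_mul_cutoff {n : ℕ} {R : ℝ} (hR : R < 1) (f g : Cn n → ℝ)
    (hf : ContinuousOn f (B n)) (hgc : Continuous g) (hg : ∀ z, R ≤ nsq z → g z = 0) :
    Integrable (fun z => f z * g z) := by
  obtain ⟨h1, h2⟩ := mul_cutoff hR f g hf hgc hg
  exact h1.integrable_of_hasCompactSupport h2

theorem eta_continuous {n : ℕ} (R : ℝ) : Continuous (eta (n := n) R) := by
  unfold eta
  have := nsq_continuous (n := n)
  fun_prop

theorem eta_nonneg {n : ℕ} (R : ℝ) (z : Cn n) : 0 ≤ eta R z := by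
  unfold eta; positivity

theorem q_zero {n : ℕ} {R : ℝ} (hR : 0 < R) (z : Cn n) (h : R ≤ nsq z) :
    max (1 - nsq z / R) 0 = 0 := by
  apply max_eq_right
  have : 1 ≤ nsq z / R := by rw [le_div_iff₀ hR]; linarith
  linarith

theorem eta_zero {n : ℕ} {R : ℝ} (hR : 0 < R) (z : Cn n) (h : R ≤ nsq z) : eta R z = 0 := by
  unfold eta; rw [q_zero hR z h]; simp

theorem ip_continuous {n : ℕ} (v : Cn n) : Continuous (fun z : Cn n => ip z v) :=
  continuous_iff_continuousAt.2 fun z => (ip_hasFDerivAt v z).continuousAt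

theorem deta_continuous {n : ℕ} (R : ℝ) (v : Cn n) :
    Continuous (fun z : Cn n => fderiv ℝ (eta R) z v) :=
  continuous_iff_continuousAt.2 fun z => (eta_fderiv_hasFDerivAt R v z).continuousAt

theorem deta_zero {n : ℕ} {R : ℝ} (hR : 0 < R) (v z : Cn n) (h : R ≤ nsq z) :
    fderiv ℝ (eta R) z v = 0 := by
  have h1 : fderiv ℝ (eta R) z v = -(6 / R) * (max (1 - nsq z / R) 0) ^ 2 * ip z v :=
    congrFun (eta_fderiv R v) z
  rw [h1, q_zero hR z h]; simp

theorem ddeta_continuous {n : ℕ} (R : ℝ) (v : Cn n) :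
    Continuous (fun z : Cn n => fderiv ℝ (fun z : Cn n => fderiv ℝ (eta R) z v) z v) := by
  have h : (fun z : Cn n => fderiv ℝ (fun z : Cn n => fderiv ℝ (eta R) z v) z v) = fun z =>
      24 / R ^ 2 * (max (1 - nsq z / R) 0) * ip z v ^ 2 -
        6 / R * (max (1 - nsq z / R) 0) ^ 2 * nsq v := funext fun z => hess_eta R v z
  rw [h]
  have h1 := nsq_continuous (n := n)
  have h2 := ip_continuous v
  fun_prop

theorem ddeta_zero {n : ℕ} {R : ℝ} (hR : 0 < R) (v z : Cn n) (h : R ≤ nsq z) :
    fderiv ℝ (fun z : Cn n => fderiv ℝ (eta R) z v) z v = 0 := by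
  rw [hess_eta, q_zero hR z h]; simp

/-- Integration by parts, one direction. -/
theorem parts_one {n : ℕ} {R : ℝ} (hR0 : 0 < R) (hR : R < 1) (w : Cn n → ℝ)
    (hw : ContDiffOn ℝ 2 w (B n)) (v : Cn n) :
    ∫ z, hess w z v v * eta R z =
      ∫ z, w z * fderiv ℝ (fun z : Cn n => fderiv ℝ (eta R) z v) z v := by
  have hwat : ∀ z ∈ B n, ContDiffAt ℝ 2 w z := fun z hz => hw.contDiffAt ((B_open n).mem_nhds hz)
  have hwc : ContinuousOn w (B n) := hw.continuousOn
  have hdw : ContDiffOn ℝ 1 (fun z => fderiv ℝ w z v) (B n) := by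
    intro z hz
    have h1 : ContDiffAt ℝ 1 (fderiv ℝ w) z := (hwat z hz).fderiv_right (by norm_num)
    exact (h1.clm_apply contDiffAt_const).contDiffWithinAt
  have hdwc : ContinuousOn (fun z => fderiv ℝ w z v) (B n) := hdw.continuousOn
  have hddwc : ContinuousOn (fun z => fderiv ℝ (fun z => fderiv ℝ w z v) z v) (B n) := by
    intro z hz
    have h1 : ContDiffAt ℝ 1 (fun z => fderiv ℝ w z v) z :=
      hdw.contDiffAt ((B_open n).mem_nhds hz)
    have h2 : ContDiffAt ℝ 0 (fderiv ℝ (fun z => fderiv ℝ w z v)) z := h1.fderiv_right (by norm_num)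
    exact (h2.continuousAt.clm_apply continuousAt_const).continuousWithinAt
  have hhess : ∀ z ∈ B n, fderiv ℝ (fun z => fderiv ℝ w z v) z v = hess w z v v := by
    intro z hz
    have h1 : ContDiffAt ℝ 1 (fderiv ℝ w) z := (hwat z hz).fderiv_right (by norm_num)
    have h2 : HasFDerivAt (fderiv ℝ w) (fderiv ℝ (fderiv ℝ w) z) z :=
      (h1.differentiableAt (by norm_num)).hasFDerivAt
    have h3 := h2.clm_apply (hasFDerivAt_const v z)
    rw [h3.fderiv]
    simp [hess]
  have htsG : tsupport (fun z : Cn n => fderiv ℝ (eta R) z v) ⊆ B n :=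
    (tsupport_subset_KR _ (fun z h => deta_zero hR0 v z h)).trans (KR_subset_B hR)
  have htsE : tsupport (eta (n := n) R) ⊆ B n :=
    (tsupport_subset_KR _ (fun z h => eta_zero hR0 z h)).trans (KR_subset_B hR)
  have p1 : ∫ z, w z * fderiv ℝ (fun z : Cn n => fderiv ℝ (eta R) z v) z v =
      - ∫ z, fderiv ℝ w z v * fderiv ℝ (eta R) z v := by
    apply integral_mul_fderiv_eq_neg_fderiv_mul_of_integrable
    · exact integrable_mul_cutoff hR _ _ hdwc (deta_continuous R v) (fun z h => deta_zero hR0 v z h)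
    · exact integrable_mul_cutoff hR _ _ hwc (ddeta_continuous R v) (fun z h => ddeta_zero hR0 v z h)
    · exact integrable_mul_cutoff hR _ _ hwc (deta_continuous R v) (fun z h => deta_zero hR0 v z h)
    · intro z hz
      exact (hwat z (htsG hz)).differentiableAt (by norm_num)
    · intro z _
      exact (eta_fderiv_hasFDerivAt R v z).differentiableAt
  have p2 : ∫ z, fderiv ℝ w z v * fderiv ℝ (eta R) z v =
      - ∫ z, fderiv ℝ (fun z => fderiv ℝ w z v) z v * eta R z := by
    apply integral_mul_fderiv_eq_neg_fderiv_mul_of_integrable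
    · exact integrable_mul_cutoff hR _ _ hddwc (eta_continuous R) (fun z h => eta_zero hR0 z h)
    · exact integrable_mul_cutoff hR _ _ hdwc (deta_continuous R v) (fun z h => deta_zero hR0 v z h)
    · exact integrable_mul_cutoff hR _ _ hdwc (eta_continuous R) (fun z h => eta_zero hR0 z h)
    · intro z hz
      exact (hdw.contDiffAt ((B_open n).mem_nhds (htsE hz))).differentiableAt (by norm_num)
    · intro z _
      exact (eta_hasFDerivAt R z).differentiableAt
  rw [p1, p2, neg_neg]
  apply integral_congr_ae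
  apply Filter.Eventually.of_forall
  intro z
  simp only
  by_cases hz : z ∈ B n
  · rw [hhess z hz]
  · have : eta R z = 0 := by
      apply eta_zero hR0
      have : ¬ nsq z < 1 := hz
      push Not at this
      linarith
    rw [this, mul_zero, mul_zero]

theorem hess_continuousOn {n : ℕ} (w : Cn n → ℝ) (hw : ContDiffOn ℝ 2 w (B n)) (v : Cn n) :
    ContinuousOn (fun z => hess w z v v) (B n) := by
  intro z hz
  have hwat : ContDiffAt ℝ 2 w z := hw.contDiffAt ((B_open n).mem_nhds hz)
  have h1 : ContDiffAt ℝ 1 (fderiv ℝ w) z := hwat.fderiv_right (by norm_num)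
  have h2 : ContDiffAt ℝ 0 (fderiv ℝ (fderiv ℝ w)) z := h1.fderiv_right (by norm_num)
  exact ((h2.continuousAt.clm_apply continuousAt_const).clm_apply
    continuousAt_const).continuousWithinAt

theorem lap_continuousOn {n : ℕ} (w : Cn n → ℝ) (hw : ContDiffOn ℝ 2 w (B n)) :
    ContinuousOn (lap w) (B n) := by
  unfold lap
  apply continuousOn_finsetSum
  intro j _
  exact (hess_continuousOn w hw _).add (hess_continuousOn w hw _)

/-- Integration by parts for the Laplacian. -/
theorem parts_lap {n : ℕ} {R : ℝ} (hR0 : 0 < R) (hR : R < 1) (w : Cn n → ℝ)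
    (hw : ContDiffOn ℝ 2 w (B n)) :
    ∫ z, lap w z * eta R z = ∫ z, w z * lapEta R z := by
  have hwc : ContinuousOn w (B n) := hw.continuousOn
  have h1 : (fun z => lap w z * eta R z) = fun z =>
      ∑ j, (hess w z (eR j) (eR j) * eta R z + hess w z (eI j) (eI j) * eta R z) := by
    funext z; unfold lap; rw [Finset.sum_mul]
    apply Finset.sum_congr rfl; intro j _; ring
  have h2 : (fun z => w z * lapEta R z) = fun z =>
      ∑ j, (w z * fderiv ℝ (fun z : Cn n => fderiv ℝ (eta R) z (eR j)) z (eR j) +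
        w z * fderiv ℝ (fun z : Cn n => fderiv ℝ (eta R) z (eI j)) z (eI j)) := by
    funext z; unfold lapEta; rw [Finset.mul_sum]
    apply Finset.sum_congr rfl; intro j _; ring
  have i1 : ∀ v : Cn n, Integrable (fun z => hess w z v v * eta R z) := fun v =>
    integrable_mul_cutoff hR _ _ (hess_continuousOn w hw v) (eta_continuous R)
      (fun z h => eta_zero hR0 z h)
  have i2 : ∀ v : Cn n, Integrable
      (fun z => w z * fderiv ℝ (fun z : Cn n => fderiv ℝ (eta R) z v) z v) := fun v =>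
    integrable_mul_cutoff hR _ _ hwc (ddeta_continuous R v) (fun z h => ddeta_zero hR0 v z h)
  have i1' : ∀ j : Fin n, Integrable (fun z => hess w z (eR j) (eR j) * eta R z +
      hess w z (eI j) (eI j) * eta R z) := fun j => (i1 _).add (i1 _)
  have i2' : ∀ j : Fin n, Integrable (fun z =>
      w z * fderiv ℝ (fun z : Cn n => fderiv ℝ (eta R) z (eR j)) z (eR j) +
        w z * fderiv ℝ (fun z : Cn n => fderiv ℝ (eta R) z (eI j)) z (eI j)) :=
    fun j => (i2 _).add (i2 _)
  rw [h1, h2, integral_finsetSum _ (fun j _ => i1' j),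
    integral_finsetSum _ (fun j _ => i2' j)]
  apply Finset.sum_congr rfl
  intro j _
  rw [integral_add (i1 _) (i1 _), integral_add (i2 _) (i2 _), parts_one hR0 hR w hw,
    parts_one hR0 hR w hw]

theorem lapEta_continuous {n : ℕ} (R : ℝ) : Continuous (lapEta (n := n) R) := by
  unfold lapEta
  apply continuous_finsetSum
  intro j _
  exact (ddeta_continuous R _).add (ddeta_continuous R _)

theorem lapEta_zero {n : ℕ} {R : ℝ} (hR : 0 < R) (z : Cn n) (h : R ≤ nsq z) : lapEta R z = 0 := by
  rw [lapEta_eq, q_zero hR z h]; simp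

/-- mass of the cut-off -/
noncomputable def mass (n : ℕ) (R : ℝ) : ℝ := ∫ z : Cn n, eta R z

theorem eta_integrable {n : ℕ} {R : ℝ} (hR0 : 0 < R) (hR : R < 1) : Integrable (eta (n := n) R) := by
  have := integrable_mul_cutoff hR (fun _ => 1) (eta (n := n) R) continuousOn_const
    (eta_continuous R) (fun z h => eta_zero hR0 z h)
  simpa using this

theorem mass_pos {n : ℕ} {R : ℝ} (hR0 : 0 < R) : 0 < mass n R := by
  unfold mass
  have hc : HasCompactSupport (eta (n := n) R) :=
    (KR_compact n R).of_isClosed_subset (isClosed_tsupport _)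
      (tsupport_subset_KR _ (fun z h => eta_zero hR0 z h))
  apply (eta_continuous R).integral_pos_of_hasCompactSupport_nonneg_nonzero hc
    (fun z => eta_nonneg R z) (x := 0)
  have : nsq (0 : Cn n) = 0 := by simp [nsq]
  unfold eta; rw [this]; simp

/-- the basic integral inequality at a fixed time -/
theorem integral_log_det_le {n : ℕ} {R : ℝ} (hR0 : 0 < R) (hR : R < 1) (w g : Cn n → ℝ)
    (hw : ContDiffOn ℝ 2 w (B n)) (hg : ContinuousOn g (B n)) (hneg : ∀ z ∈ B n, w z ≤ 0)
    (hpos : ∀ z ∈ B n, (complexHessian w z).PosDef)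
    (heq : ∀ z ∈ B n, g z = Real.log (complexHessian w z).det.re) :
    ∫ z, g z * eta R z ≤ (- ∫ z, w z * eta R z) +
      n * (Real.log (6 * ((n : ℝ) + 2) ^ 2 / (4 * R)) - 1) * mass n R := by
  set K : ℝ := 6 * ((n : ℝ) + 2) ^ 2 with hK
  have hKpos : 0 < K := by positivity
  set c : ℝ := K / (4 * R) with hc
  have hcpos : 0 < c := by positivity
  have hpt : ∀ z, g z * eta R z ≤ (1 / (4 * c)) * (lap w z * eta R z) +
      (n * (Real.log c - 1)) * eta R z := by
    intro z
    by_cases hz : z ∈ B n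
    · have h1 := log_det_le (complexHessian w z) (hpos z hz) c hcpos
      rw [← heq z hz, trace_complexHessian] at h1
      have h2 := mul_le_mul_of_nonneg_right h1 (eta_nonneg R z)
      have h3 : (lap w z / 4 / c + ↑n * (Real.log c - 1)) * eta R z =
          (1 / (4 * c)) * (lap w z * eta R z) + (n * (Real.log c - 1)) * eta R z := by
        field_simp
      linarith
    · have : eta R z = 0 := by
        apply eta_zero hR0
        have : ¬ nsq z < 1 := hz
        push Not at this
        linarith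
      rw [this]; simp
  have i1 : Integrable (fun z => g z * eta R z) :=
    integrable_mul_cutoff hR _ _ hg (eta_continuous R) (fun z h => eta_zero hR0 z h)
  have i2 : Integrable (fun z => lap w z * eta R z) :=
    integrable_mul_cutoff hR _ _ (lap_continuousOn w hw) (eta_continuous R)
      (fun z h => eta_zero hR0 z h)
  have i3 : Integrable (fun z => w z * eta R z) :=
    integrable_mul_cutoff hR _ _ hw.continuousOn (eta_continuous R) (fun z h => eta_zero hR0 z h)
  have i4 : Integrable (fun z => w z * lapEta R z) :=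
    integrable_mul_cutoff hR _ _ hw.continuousOn (lapEta_continuous R)
      (fun z h => lapEta_zero hR0 z h)
  have hη := eta_integrable (n := n) hR0 hR
  have h4 : ∫ z, g z * eta R z ≤ ∫ z, ((1 / (4 * c)) * (lap w z * eta R z) +
      (n * (Real.log c - 1)) * eta R z) :=
    integral_mono i1 ((i2.const_mul _).add (hη.const_mul _)) hpt
  rw [integral_add (i2.const_mul _) (hη.const_mul _), integral_const_mul, integral_const_mul,
    parts_lap hR0 hR w hw] at h4
  have h5 : ∫ z, w z * lapEta R z ≤ (K / R) * (- ∫ z, w z * eta R z) := by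
    have h6 : ∫ z, w z * lapEta R z ≤ ∫ z, (-(K / R)) * (w z * eta R z) := by
      apply integral_mono i4 (i3.const_mul _)
      intro z
      simp only
      by_cases hz : z ∈ B n
      · have h7 := lapEta_ge R hR0 z
        have h8 := mul_le_mul_of_nonpos_left h7 (hneg z hz)
        rw [← hK] at h8
        calc w z * lapEta R z ≤ w z * (-(K / R) * eta R z) := h8
          _ = -(K / R) * (w z * eta R z) := by ring
      · have h9 : R ≤ nsq z := by
          have : ¬ nsq z < 1 := hz
          push Not at this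
          linarith
        rw [eta_zero hR0 z h9, lapEta_zero hR0 z h9]; simp
    rw [integral_const_mul] at h6
    linarith
  have h10 : (1 / (4 * c)) * ∫ z, w z * lapEta R z ≤ - ∫ z, w z * eta R z := by
    have h11 := mul_le_mul_of_nonneg_left h5 (by positivity : 0 ≤ 1 / (4 * c))
    have h12 : 1 / (4 * c) * ((K / R) * (- ∫ z, w z * eta R z)) = - ∫ z, w z * eta R z := by
      rw [hc]; field_simp
    linarith
  have h13 : (n * (Real.log c - 1)) * ∫ z, eta R z = n * (Real.log c - 1) * mass n R := rfl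
  linarith

/-! ### The contradiction -/

/-- The hypotheses used in the argument: a solution on the unit ball with zero lateral values
and initial values log|z| off the origin. -/
structure Core (n : ℕ) (T : ℝ) (u : Cn n × ℝ → ℝ) : Prop where
  cont : ContinuousOn u (KR n 1 ×ˢ Ioo 0 T)
  smooth : ContDiffOn ℝ 2 u (B n ×ˢ Ioo 0 T)
  posDef : ∀ t ∈ Ioo 0 T, ∀ z ∈ B n, (complexHessian (fun z => u (z, t)) z).PosDef
  flow : ∀ t ∈ Ioo 0 T, ∀ z ∈ B n, deriv (fun s => u (z, s)) t =
    Real.log (complexHessian (fun z => u (z, t)) z).det.re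
  bdry : ∀ t ∈ Ioo 0 T, ∀ z, nsq z = 1 → u (z, t) = 0
  init : ∀ z, z ≠ 0 → nsq z < 1 →
    Tendsto (fun t => u (z, t)) (𝓝[>] 0) (𝓝 (Real.log (nsq z) / 2))

section core

variable {n : ℕ} {T : ℝ} {u : Cn n × ℝ → ℝ}

theorem Core.slice (h : Core n T u) {t : ℝ} (ht : t ∈ Ioo 0 T) :
    ContDiffOn ℝ 2 (fun z => u (z, t)) (B n) := by
  have h1 : ContDiffOn ℝ 2 (fun z : Cn n => (z, t)) (B n) := by fun_prop
  exact h.smooth.comp h1 fun z hz => ⟨hz, ht⟩

theorem Core.nonpos (h : Core n T u) (hn : 1 ≤ n) {t : ℝ} (ht : t ∈ Ioo 0 T) :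
    ∀ z ∈ KR n 1, u (z, t) ≤ 0 := by
  have hcont : ContinuousOn (fun z => u (z, t)) (KR n 1) := by
    have h1 : ContinuousOn (fun z : Cn n => (z, t)) (KR n 1) := by fun_prop
    exact h.cont.comp h1 fun z hz => ⟨hz, ht⟩
  have hne : (KR n 1).Nonempty := ⟨0, by simp [KR, nsq]⟩
  obtain ⟨z₀, hz₀, hmax⟩ := (KR_compact n 1).exists_isMaxOn hne hcont
  have hz₀0 : u (z₀, t) ≤ 0 := by
    rcases (lt_or_eq_of_le (show nsq z₀ ≤ 1 from hz₀)) with hlt | heq
    · exfalso
      have hB : z₀ ∈ B n := hlt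
      have hmem : KR n 1 ∈ 𝓝 z₀ := by
        apply Filter.mem_of_superset ((B_open n).mem_nhds hB)
        intro z hz; exact le_of_lt (show nsq z < 1 from hz)
      have hloc : IsLocalMax (fun z => u (z, t)) z₀ := hmax.isLocalMax hmem
      have hcd : ContDiffAt ℝ 2 (fun z => u (z, t)) z₀ :=
        (h.slice ht).contDiffAt ((B_open n).mem_nhds hB)
      let j : Fin n := ⟨0, hn⟩
      have h1 := hess_nonpos_of_localMax _ z₀ (eR j) hcd hloc
      have h2 := hess_nonpos_of_localMax _ z₀ (eI j) hcd hloc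
      have h3 := (h.posDef t ht z₀ hB).diag_pos (i := j)
      have h4 : 0 < (complexHessian (fun z => u (z, t)) z₀ j j).re := (Complex.pos_iff.1 h3).1
      rw [diag_complexHessian] at h4
      linarith
    · exact (h.bdry t ht z₀ heq).le
  intro z hz
  exact (hmax hz).trans hz₀0

/-- the time derivative, as a derivative of the function of all variables -/
theorem Core.time (h : Core n T u) {t : ℝ} (ht : t ∈ Ioo 0 T) {z : Cn n} (hz : z ∈ B n) :
    HasDerivAt (fun s => u (z, s)) (fderiv ℝ u (z, t) (0, 1)) t := by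
  have hopen : IsOpen (B n ×ˢ Ioo 0 T) := (B_open n).prod isOpen_Ioo
  have h1 : HasFDerivAt u (fderiv ℝ u (z, t)) (z, t) :=
    ((h.smooth.contDiffAt (hopen.mem_nhds ⟨hz, ht⟩)).differentiableAt (by norm_num)).hasFDerivAt
  have h2 : HasDerivAt (fun s : ℝ => (z, s)) ((0 : Cn n), (1 : ℝ)) t :=
    (hasDerivAt_const t z).prodMk (hasDerivAt_id t)
  exact h1.comp_hasDerivAt t h2

theorem Core.time_cont (h : Core n T u) :
    ContinuousOn (fun p => fderiv ℝ u p ((0 : Cn n), (1 : ℝ))) (B n ×ˢ Ioo 0 T) := by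
  have hopen : IsOpen (B n ×ˢ Ioo 0 T) := (B_open n).prod isOpen_Ioo
  intro p hp
  have h1 : ContDiffAt ℝ 1 (fderiv ℝ u) p :=
    (h.smooth.contDiffAt (hopen.mem_nhds hp)).fderiv_right (by norm_num)
  exact (h1.continuousAt.clm_apply continuousAt_const).continuousWithinAt

theorem outside_eta {R : ℝ} (hR0 : 0 < R) (hR : R < 1) {z : Cn n} (hz : z ∉ B n) :
    eta R z = 0 := by
  apply eta_zero hR0
  have : ¬ nsq z < 1 := hz
  push Not at this
  linarith

theorem Core.deriv_a (h : Core n T u) {R : ℝ} (hR0 : 0 < R) (hR : R < 1) {t : ℝ}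
    (ht : t ∈ Ioo 0 T) :
    HasDerivAt (fun s => ∫ z, u (z, s) * eta R z)
      (∫ z, fderiv ℝ u (z, t) (0, 1) * eta R z) t := by
  obtain ⟨ε, hε, hsub⟩ : ∃ ε > 0, Metric.closedBall t ε ⊆ Ioo 0 T :=
    Metric.nhds_basis_closedBall.mem_iff.1 (isOpen_Ioo.mem_nhds ht)
  have hK : IsCompact (KR n R ×ˢ Metric.closedBall t ε) :=
    (KR_compact n R).prod (isCompact_closedBall t ε)
  have hKsub : KR n R ×ˢ Metric.closedBall t ε ⊆ B n ×ˢ Ioo 0 T :=
    Set.prod_mono (KR_subset_B hR) hsub
  obtain ⟨M, hM⟩ := hK.exists_bound_of_continuousOn (h.time_cont.mono hKsub)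
  have hslice : ∀ s ∈ Ioo 0 T, ContinuousOn (fun z => u (z, s)) (B n) :=
    fun s hs => (h.slice hs).continuousOn
  have hgs : ContinuousOn (fun z => fderiv ℝ u (z, t) ((0 : Cn n), (1 : ℝ))) (B n) := by
    have h1 : ContinuousOn (fun z : Cn n => (z, t)) (B n) := by fun_prop
    exact h.time_cont.comp h1 fun z hz => ⟨hz, ht⟩
  have hη := eta_integrable (n := n) hR0 hR
  refine (hasDerivAt_integral_of_dominated_loc_of_deriv_le
    (s := Metric.closedBall t ε) (bound := fun z => M * eta R z)
    (F := fun s z => u (z, s) * eta R z)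
    (F' := fun s z => fderiv ℝ u (z, s) ((0 : Cn n), (1 : ℝ)) * eta R z)
    (Metric.closedBall_mem_nhds t hε) ?_ ?_ ?_ ?_ ?_ ?_).2
  · filter_upwards [isOpen_Ioo.mem_nhds ht] with s hs
    exact (integrable_mul_cutoff hR _ _ (hslice s hs) (eta_continuous R)
      (fun z h => eta_zero hR0 z h)).aestronglyMeasurable
  · exact integrable_mul_cutoff hR _ _ (hslice t ht) (eta_continuous R)
      (fun z h => eta_zero hR0 z h)
  · exact (integrable_mul_cutoff hR _ _ hgs (eta_continuous R)
      (fun z h => eta_zero hR0 z h)).aestronglyMeasurable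
  · apply Filter.Eventually.of_forall
    intro z s hs
    rw [norm_mul, Real.norm_of_nonneg (eta_nonneg R z)]
    by_cases hz : z ∈ KR n R
    · exact mul_le_mul_of_nonneg_right (hM (z, s) ⟨hz, hs⟩) (eta_nonneg R z)
    · have hz' : R ≤ nsq z := by
        have : ¬ nsq z ≤ R := hz
        push Not at this
        exact this.le
      rw [eta_zero hR0 z hz']; simp
  · exact hη.const_mul M
  · apply Filter.Eventually.of_forall
    intro z s hs
    by_cases hz : z ∈ B n
    · exact (h.time (hsub hs) hz).mul_const _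
    · rw [outside_eta hR0 hR hz]
      simpa using hasDerivAt_const s (0 : ℝ)

/-- the differential inequality, integrated -/
theorem Core.mono (h : Core n T u) (hn : 1 ≤ n) {R : ℝ} (hR0 : 0 < R) (hR : R < 1) :
    MonotoneOn (fun s => Real.exp s * ((- ∫ z, u (z, s) * eta R z) +
      n * (Real.log (6 * ((n : ℝ) + 2) ^ 2 / (4 * R)) - 1) * mass n R)) (Ioo 0 T) := by
  set b : ℝ := n * (Real.log (6 * ((n : ℝ) + 2) ^ 2 / (4 * R)) - 1) * mass n R with hb
  have hder : ∀ t ∈ Ioo 0 T, HasDerivAt (fun s => Real.exp s * ((- ∫ z, u (z, s) * eta R z) + b))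
      (Real.exp t * ((- ∫ z, u (z, t) * eta R z) + b) +
        Real.exp t * (- ∫ z, fderiv ℝ u (z, t) (0, 1) * eta R z)) t := by
    intro t ht
    exact (Real.hasDerivAt_exp t).mul ((h.deriv_a hR0 hR ht).neg.add_const b)
  apply monotoneOn_of_deriv_nonneg (convex_Ioo 0 T)
  · intro t ht; exact (hder t ht).continuousAt.continuousWithinAt
  · intro t ht
    rw [interior_Ioo] at ht
    exact (hder t ht).differentiableAt.differentiableWithinAt
  · intro t ht
    rw [interior_Ioo] at ht
    rw [(hder t ht).deriv]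
    have hgs : ContinuousOn (fun z => fderiv ℝ u (z, t) ((0 : Cn n), (1 : ℝ))) (B n) := by
      have h1 : ContinuousOn (fun z : Cn n => (z, t)) (B n) := by fun_prop
      exact h.time_cont.comp h1 fun z hz => ⟨hz, ht⟩
    have h1 := integral_log_det_le hR0 hR (fun z => u (z, t))
      (fun z => fderiv ℝ u (z, t) ((0 : Cn n), (1 : ℝ))) (h.slice ht) hgs
      (fun z hz => h.nonpos hn ht z (le_of_lt (show nsq z < 1 from hz))) (h.posDef t ht) (fun z hz => by
        rw [← h.flow t ht z hz]; exact (h.time ht hz).deriv.symm)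
    rw [← hb] at h1
    have h2 : Real.exp t * ((- ∫ z, u (z, t) * eta R z) + b) +
        Real.exp t * (- ∫ z, fderiv ℝ u (z, t) (0, 1) * eta R z) =
        Real.exp t * ((- ∫ z, u (z, t) * eta R z) + b -
          ∫ z, fderiv ℝ u (z, t) (0, 1) * eta R z) := by ring
    rw [h2]
    apply mul_nonneg (Real.exp_pos t).le
    linarith

/-- the lower bound coming from the initial datum -/
theorem Core.lower (h : Core n T u) (hn : 1 ≤ n) (hT : 0 < T) {R : ℝ} (hR0 : 0 < R) (hR : R < 1)
    {t : ℝ} (ht : t ∈ Ioo 0 T) :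
    (- Real.log R / 2) * mass n R +
      n * (Real.log (6 * ((n : ℝ) + 2) ^ 2 / (4 * R)) - 1) * mass n R ≤
    Real.exp t * ((- ∫ z, u (z, t) * eta R z) +
      n * (Real.log (6 * ((n : ℝ) + 2) ^ 2 / (4 * R)) - 1) * mass n R) := by
  set b : ℝ := n * (Real.log (6 * ((n : ℝ) + 2) ^ 2 / (4 * R)) - 1) * mass n R with hb
  set C : ℝ := - Real.log R / 2 with hC
  have hCpos : 0 < C := by
    have := Real.log_neg hR0 hR
    rw [hC]; linarith
  have hη := eta_integrable (n := n) hR0 hR
  -- the truncated integrals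
  have hlim : Tendsto (fun s => ∫ z, min (-u (z, s)) C * eta R z) (𝓝[>] 0)
      (𝓝 (∫ z : Cn n, C * eta R z)) := by
    apply tendsto_integral_filter_of_dominated_convergence (fun z => C * eta R z)
    · filter_upwards [Ioo_mem_nhdsGT hT] with s hs
      have h1 : ContinuousOn (fun z => min (-u (z, s)) C) (B n) :=
        ContinuousOn.inf (f := fun z => -u (z, s)) ((h.slice hs).continuousOn.neg)
          continuousOn_const
      exact (integrable_mul_cutoff hR _ _ h1 (eta_continuous R)
        (fun z h => eta_zero hR0 z h)).aestronglyMeasurable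
    · filter_upwards [Ioo_mem_nhdsGT hT] with s hs
      apply Filter.Eventually.of_forall
      intro z
      rw [norm_mul, Real.norm_of_nonneg (eta_nonneg R z)]
      by_cases hz : z ∈ B n
      · apply mul_le_mul_of_nonneg_right _ (eta_nonneg R z)
        have h2 := h.nonpos hn hs z (le_of_lt (show nsq z < 1 from hz))
        rw [Real.norm_of_nonneg (le_min (by linarith) hCpos.le)]
        exact min_le_right _ _
      · rw [outside_eta hR0 hR hz]; simp
    · exact hη.const_mul C
    · have hne : ∀ᵐ z : Cn n, z ≠ 0 := by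
        have : Nonempty (Fin n) := ⟨⟨0, hn⟩⟩
        have : Nontrivial (Cn n) := Function.nontrivial
        exact (measure_singleton (0 : Cn n) : volume {(0 : Cn n)} = 0) |> fun h => by
          rw [ae_iff]; simp
      filter_upwards [hne] with z hz
      by_cases hzR : nsq z < R
      · have h3 := h.init z hz (hzR.trans hR)
        have h4 : Tendsto (fun s => min (-u (z, s)) C) (𝓝[>] 0)
            (𝓝 (min (-(Real.log (nsq z) / 2)) C)) := h3.neg.min tendsto_const_nhds
        have hzpos : 0 < nsq z := by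
          rcases (nsq_nonneg z).lt_or_eq with h5 | h5
          · exact h5
          · exfalso; apply hz
            funext j
            have h6 := norm_sq_le_nsq z j
            rw [← h5] at h6
            have h7 : ‖z j‖ = 0 := by nlinarith [norm_nonneg (z j)]
            simpa using h7
        have h8 : min (-(Real.log (nsq z) / 2)) C = C := by
          apply min_eq_right
          have := Real.log_le_log hzpos hzR.le
          rw [hC]; linarith
        rw [h8] at h4
        exact h4.mul_const _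
      · push Not at hzR
        rw [eta_zero hR0 z hzR]
        simp
  have hIC : ∫ z, C * eta (n := n) R z = C * mass n R := by
    rw [integral_const_mul]; rfl
  rw [hIC] at hlim
  have hlim2 : Tendsto (fun s => Real.exp s * ((∫ z, min (-u (z, s)) C * eta R z) + b)) (𝓝[>] 0)
      (𝓝 (Real.exp 0 * (C * mass n R + b))) := by
    apply Tendsto.mul
    · exact (Real.continuous_exp.tendsto 0).mono_left nhdsWithin_le_nhds
    · exact hlim.add_const b
  rw [Real.exp_zero, one_mul] at hlim2
  refine le_of_tendsto hlim2 ?_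
  filter_upwards [Ioo_mem_nhdsGT ht.1] with s hs
  have hs' : s ∈ Ioo 0 T := ⟨hs.1, hs.2.trans ht.2⟩
  have hmono := h.mono hn hR0 hR hs' ht hs.2.le
  rw [← hb] at hmono
  refine le_trans ?_ hmono
  simp only
  apply mul_le_mul_of_nonneg_left _ (Real.exp_pos s).le
  have h9 : ∫ z, min (-u (z, s)) C * eta R z ≤ ∫ z, (-(u (z, s) * eta R z)) := by
    apply integral_mono
    · have h1 : ContinuousOn (fun z => min (-u (z, s)) C) (B n) :=
        ContinuousOn.inf (f := fun z => -u (z, s)) ((h.slice hs').continuousOn.neg)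
          continuousOn_const
      exact integrable_mul_cutoff hR _ _ h1 (eta_continuous R) (fun z h => eta_zero hR0 z h)
    · exact (integrable_mul_cutoff hR _ _ (h.slice hs').continuousOn (eta_continuous R)
        (fun z h => eta_zero hR0 z h)).neg
    · intro z
      simp only
      rw [← neg_mul]
      exact mul_le_mul_of_nonneg_right (min_le_left _ _) (eta_nonneg R z)
  rw [integral_neg] at h9
  linarith

/-- the upper bound coming from the smoothness of u at positive times -/
theorem Core.upper (h : Core n T u) {R S : ℝ} (hR0 : 0 < R) (hR : R ≤ 1 / 4)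
    {t : ℝ} (ht : t ∈ Ioo 0 T) (hS : ∀ z ∈ KR n (1 / 4), ‖u (z, t)‖ ≤ S) :
    (- ∫ z, u (z, t) * eta R z) ≤ S * mass n R := by
  have hR1 : R < 1 := by linarith
  have hη := eta_integrable (n := n) hR0 hR1
  have h1 : S * mass n R = ∫ z, S * eta (n := n) R z := by
    rw [integral_const_mul]; rfl
  rw [h1, ← integral_neg]
  apply integral_mono
  · exact (integrable_mul_cutoff hR1 _ _ (h.slice ht).continuousOn (eta_continuous R)
        (fun z h => eta_zero hR0 z h)).neg
  · exact hη.const_mul S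
  · intro z
    simp only
    by_cases hz : nsq z ≤ R
    · have h2 : z ∈ KR n (1 / 4) := hz.trans hR
      have h3 := hS z h2
      rw [Real.norm_eq_abs] at h3
      have h4 := (abs_le.1 h3).1
      rw [← neg_mul]
      exact mul_le_mul_of_nonneg_right (by linarith) (eta_nonneg R z)
    · push Not at hz
      rw [eta_zero hR0 z hz.le]; simp

theorem Core.false (h : Core n T u) (hn : 1 ≤ n) (hT : 0 < T) : False := by
  have hn0 : (0 : ℝ) < n := by exact_mod_cast hn
  set t : ℝ := min (T / 2) (1 / (4 * n + 2)) with htdef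
  have ht0 : 0 < t := lt_min (by linarith) (by positivity)
  have htT : t < T := lt_of_le_of_lt (min_le_left _ _) (by linarith)
  have ht : t ∈ Ioo 0 T := ⟨ht0, htT⟩
  have htn : t * (2 * n + 1) ≤ 1 / 2 := by
    have h1 : t ≤ 1 / (4 * n + 2) := min_le_right _ _
    have h2 : t * (2 * n + 1) ≤ 1 / (4 * n + 2) * (2 * n + 1) :=
      mul_le_mul_of_nonneg_right h1 (by positivity)
    have h3 : 1 / (4 * (n : ℝ) + 2) * (2 * n + 1) = 1 / 2 := by field_simp; ring
    linarith
  have hcont : ContinuousOn (fun z => u (z, t)) (KR n (1 / 4)) :=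
    (h.slice ht).continuousOn.mono (KR_subset_B (by norm_num))
  obtain ⟨S, hS⟩ := (KR_compact n (1 / 4)).exists_bound_of_continuousOn hcont
  set C₀ : ℝ := Real.log (6 * ((n : ℝ) + 2) ^ 2 / 4) - 1 with hC₀
  -- the key inequality
  have key : ∀ R : ℝ, 0 < R → R ≤ 1 / 4 → (- Real.log R / 2) / 2 ≤ S + n * |C₀| := by
    intro R hR0 hR
    have hR1 : R < 1 := by linarith
    have hm : 0 < mass n R := mass_pos hR0
    have hlow := h.lower hn hT hR0 hR1 ht
    have hup := h.upper hR0 hR ht hS
    set C : ℝ := - Real.log R / 2 with hC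
    have hCpos : 0 < C := by
      have := Real.log_neg hR0 hR1
      rw [hC]; linarith
    have hlog : Real.log (6 * ((n : ℝ) + 2) ^ 2 / (4 * R)) - 1 = C₀ + 2 * C := by
      have h1 : 6 * ((n : ℝ) + 2) ^ 2 / (4 * R) = (6 * ((n : ℝ) + 2) ^ 2 / 4) / R := by
        field_simp
      rw [h1, Real.log_div (by positivity) hR0.ne', hC₀, hC]; ring
    rw [hlog] at hlow
    have h2 : C * mass n R + n * (C₀ + 2 * C) * mass n R ≤
        Real.exp t * (S * mass n R + n * (C₀ + 2 * C) * mass n R) := by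
      refine hlow.trans (mul_le_mul_of_nonneg_left ?_ (Real.exp_pos t).le)
      linarith
    have h3 : (C + n * (C₀ + 2 * C)) * mass n R ≤
        (Real.exp t * (S + n * (C₀ + 2 * C))) * mass n R := by
      have e1 : (C + n * (C₀ + 2 * C)) * mass n R =
        C * mass n R + n * (C₀ + 2 * C) * mass n R := by ring
      have e2 : (Real.exp t * (S + n * (C₀ + 2 * C))) * mass n R =
        Real.exp t * (S * mass n R + n * (C₀ + 2 * C) * mass n R) := by ring
      rw [e1, e2]; exact h2
    have h4 : C + n * (C₀ + 2 * C) ≤ Real.exp t * (S + n * (C₀ + 2 * C)) :=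
      le_of_mul_le_mul_right h3 hm
    have h5 : Real.exp (-t) * (C + n * (C₀ + 2 * C)) ≤ S + n * (C₀ + 2 * C) := by
      have h6 := mul_le_mul_of_nonneg_left h4 (Real.exp_pos (-t)).le
      have h7 : Real.exp (-t) * (Real.exp t * (S + n * (C₀ + 2 * C))) = S + n * (C₀ + 2 * C) := by
        rw [← mul_assoc, ← Real.exp_add]; simp
      linarith
    have h8 : 1 - t ≤ Real.exp (-t) := by
      have := Real.add_one_le_exp (-t); linarith
    have h9 : Real.exp (-t) ≤ 1 := Real.exp_le_one_iff.2 (by linarith)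
    -- C (e^{-t}(1+2n) - 2n) + n C₀ (e^{-t} - 1) ≤ S
    have h10 : C * (Real.exp (-t) * (2 * n + 1) - 2 * n) + n * C₀ * (Real.exp (-t) - 1) ≤ S := by
      have : Real.exp (-t) * (C + n * (C₀ + 2 * C)) - n * (C₀ + 2 * C) =
        C * (Real.exp (-t) * (2 * n + 1) - 2 * n) + n * C₀ * (Real.exp (-t) - 1) := by ring
      linarith
    have h11 : 1 / 2 ≤ Real.exp (-t) * (2 * n + 1) - 2 * n := by
      have := mul_le_mul_of_nonneg_right h8 (by positivity : (0 : ℝ) ≤ 2 * n + 1)
      nlinarith
    have h12 : C / 2 ≤ C * (Real.exp (-t) * (2 * n + 1) - 2 * n) := by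
      have := mul_le_mul_of_nonneg_left h11 hCpos.le
      linarith
    have h13 : - (n * |C₀|) ≤ n * C₀ * (Real.exp (-t) - 1) := by
      have h14 : C₀ * (1 - Real.exp (-t)) ≤ |C₀| := by
        calc C₀ * (1 - Real.exp (-t)) ≤ |C₀| * (1 - Real.exp (-t)) :=
              mul_le_mul_of_nonneg_right (le_abs_self _) (by linarith)
          _ ≤ |C₀| * 1 := mul_le_mul_of_nonneg_left (by linarith [Real.exp_pos (-t)]) (abs_nonneg _)
          _ = |C₀| := mul_one _
      have h15 := mul_le_mul_of_nonneg_left h14 hn0.le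
      nlinarith
    linarith
  -- choose R small
  set D : ℝ := S + n * |C₀| with hD
  have hk := key (min (1 / 4) (Real.exp (-(4 * D + 4)))) (by positivity) (min_le_left _ _)
  have hl : Real.log (min (1 / 4) (Real.exp (-(4 * D + 4)))) ≤ -(4 * D + 4) := by
    have h1 : Real.log (min (1 / 4) (Real.exp (-(4 * D + 4)))) ≤
        Real.log (Real.exp (-(4 * D + 4))) :=
      Real.log_le_log (by positivity) (min_le_right _ _)
    rwa [Real.log_exp] at h1
  linarith

end core

/-! ### The logarithmic pole is plurisubharmonic -/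

/-- The point z + e^{iθ} w on the boundary circle of the complex disc z + D w. -/
noncomputable def circ {n : ℕ} (z w : Cn n) (θ : ℝ) : Cn n :=
  z + Complex.exp ((θ : ℂ) * Complex.I) • w

/-- Plurisubharmonic functions on an open set V, with values in [-∞, ∞) and not identically -∞:
upper semicontinuous on V and, for every closed complex disc {z + ζ w, |ζ| ≤ 1} contained in V,
the value at the centre z is at most the mean over the boundary circle.  The mean of an upper
semicontinuous function is the infimum of the means of its continuous majorants. -/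
def IsPSH {n : ℕ} (V : Set (Cn n)) (f : Cn n → EReal) : Prop :=
  (∀ z ∈ V, f z ≠ ⊤) ∧ (∃ z ∈ V, f z ≠ ⊥) ∧ UpperSemicontinuousOn f V ∧
  ∀ z w : Cn n, (∀ ζ : ℂ, ‖ζ‖ ≤ 1 → z + ζ • w ∈ V) →
    ∀ h : ℝ → ℝ, Continuous h → (∀ θ ∈ Icc 0 (2 * Real.pi), f (circ z w θ) ≤ (h θ : EReal)) →
      f z ≤ (((2 * Real.pi)⁻¹ * ∫ θ in (0 : ℝ)..(2 * Real.pi), h θ : ℝ) : EReal)

open Classical in
/-- The function log|z|, with value -∞ at the origin. -/
noncomputable def logPole {n : ℕ} (z : Cn n) : EReal :=
  if z = 0 then ⊥ else ((Real.log (nsq z) / 2 : ℝ) : EReal)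

theorem logPole_zero {n : ℕ} : logPole (0 : Cn n) = ⊥ := by simp [logPole]

theorem logPole_ne {n : ℕ} {z : Cn n} (hz : z ≠ 0) :
    logPole z = ((Real.log (nsq z) / 2 : ℝ) : EReal) := by simp [logPole, hz]

theorem nsq_pos {n : ℕ} {z : Cn n} (hz : z ≠ 0) : 0 < nsq z := by
  rcases (nsq_nonneg z).lt_or_eq with h5 | h5
  · exact h5
  · exfalso; apply hz
    funext j
    have h6 := norm_sq_le_nsq z j
    rw [← h5] at h6
    have h7 : ‖z j‖ = 0 := by nlinarith [norm_nonneg (z j)]
    simpa using h7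

theorem nsq_zero {n : ℕ} : nsq (0 : Cn n) = 0 := by simp [nsq]

/-- Mean value inequality for log|α + ζ β|. -/
theorem log_mean (α β : ℂ) (hα : α ≠ 0) (h : ℝ → ℝ) (hc : Continuous h)
    (hle : ∀ θ ∈ Icc 0 (2 * Real.pi), α + Complex.exp ((θ : ℂ) * Complex.I) * β ≠ 0 →
      Real.log ‖α + Complex.exp ((θ : ℂ) * Complex.I) * β‖ ≤ h θ) :
    Real.log ‖α‖ ≤ (2 * Real.pi)⁻¹ * ∫ θ in (0 : ℝ)..(2 * Real.pi), h θ := by
  have hpi : (0 : ℝ) < 2 * Real.pi := by positivity
  by_cases hβ : β = 0
  · subst hβ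
    have h1 : ∫ θ in (0 : ℝ)..(2 * Real.pi), Real.log ‖α‖ ≤
        ∫ θ in (0 : ℝ)..(2 * Real.pi), h θ := by
      apply intervalIntegral.integral_mono_on hpi.le
      · simp
      · exact hc.intervalIntegrable _ _
      · intro θ hθ
        have := hle θ hθ (by simpa using hα)
        simpa using this
    rw [intervalIntegral.integral_const] at h1
    have h2 := mul_le_mul_of_nonneg_left h1 (by positivity : (0 : ℝ) ≤ (2 * Real.pi)⁻¹)
    have h3 : (2 * Real.pi)⁻¹ * ((2 * Real.pi - 0) • Real.log ‖α‖) = Real.log ‖α‖ := by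
      rw [smul_eq_mul]; field_simp; ring
    linarith
  · have hβn : 0 < ‖β‖ := norm_pos_iff.2 hβ
    set u : ℂ := β / ‖β‖ with hu
    have hun : ‖u‖ = 1 := by
      rw [hu, norm_div]; simp [hβn.ne']
    have hu0 : u ≠ 0 := by
      intro h0; rw [h0] at hun; simp at hun
    have hβu : β = ‖β‖ * u := by
      rw [hu]; field_simp
    set a : ℂ := -(α / u) with ha
    have key : ∀ θ : ℝ, ‖circleMap 0 ‖β‖ θ - a‖ =
        ‖α + Complex.exp ((θ : ℂ) * Complex.I) * β‖ := by
      intro θ
      have h1 : α + Complex.exp ((θ : ℂ) * Complex.I) * β = (circleMap 0 ‖β‖ θ - a) * u := by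
        rw [ha, circleMap, sub_neg_eq_add, add_mul, div_mul_cancel₀ _ hu0, zero_add]
        conv_lhs => rw [hβu]
        ring
      rw [h1, norm_mul, hun, mul_one]
    have havg := circleAverage_log_norm_sub_const_eq_log_radius_add_posLog (a := a) (c := 0)
      hβn.ne'
    have hint : IntervalIntegrable (fun θ => Real.log ‖circleMap 0 ‖β‖ θ - a‖) volume 0
        (2 * Real.pi) := circleIntegrable_log_norm_sub_const (a := a) (c := 0) ‖β‖
    have hnull : ∀ᵐ θ : ℝ, circleMap 0 ‖β‖ θ ≠ a := by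
      have h1 := ((countable_singleton a).preimage_circleMap 0 hβn.ne').measure_zero volume
      rw [ae_iff]
      simp only [ne_eq, not_not]
      exact h1
    have hmono : ∫ θ in (0 : ℝ)..(2 * Real.pi), Real.log ‖circleMap 0 ‖β‖ θ - a‖ ≤
        ∫ θ in (0 : ℝ)..(2 * Real.pi), h θ := by
      apply intervalIntegral.integral_mono_ae_restrict hpi.le hint (hc.intervalIntegrable _ _)
      rw [Filter.EventuallyLE, ae_restrict_iff' measurableSet_Icc]
      filter_upwards [hnull] with θ hθ hθI
      rw [key]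
      apply hle θ hθI
      rw [← norm_ne_zero_iff, ← key]
      exact norm_ne_zero_iff.2 (sub_ne_zero.2 hθ)
    have h2 := mul_le_mul_of_nonneg_left hmono (by positivity : (0 : ℝ) ≤ (2 * Real.pi)⁻¹)
    have h3 : Real.circleAverage (fun x => Real.log ‖x - a‖) 0 ‖β‖ =
        (2 * Real.pi)⁻¹ * ∫ θ in (0 : ℝ)..(2 * Real.pi), Real.log ‖circleMap 0 ‖β‖ θ - a‖ := rfl
    rw [← h3, havg] at h2
    refine le_trans ?_ h2
    have h4 : ‖(0 : ℂ) - a‖ = ‖α‖ := by
      rw [ha, sub_neg_eq_add, zero_add, norm_div, hun, div_one]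
    rw [h4]
    have h5 : Real.log (‖β‖⁻¹ * ‖α‖) ≤ Real.posLog (‖β‖⁻¹ * ‖α‖) := le_max_right _ _
    rw [Real.log_mul (by positivity) (norm_ne_zero_iff.2 hα), Real.log_inv] at h5
    linarith

theorem psh_logPole (n : ℕ) (hn : 1 ≤ n) : IsPSH (univ : Set (Cn n)) logPole := by
  refine ⟨?_, ?_, ?_, ?_⟩
  · intro z _
    by_cases hz : z = 0
    · rw [hz, logPole_zero]; simp
    · rw [logPole_ne hz]; exact EReal.coe_ne_top _
  · refine ⟨eR ⟨0, hn⟩, mem_univ _, ?_⟩
    have : eR (⟨0, hn⟩ : Fin n) ≠ 0 := by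
      intro h0
      have := nsq_eR (⟨0, hn⟩ : Fin n)
      rw [h0, nsq_zero] at this
      norm_num at this
    rw [logPole_ne this]
    exact EReal.coe_ne_bot _
  · intro z _ y hy
    rw [nhdsWithin_univ]
    by_cases hz : z = 0
    · subst hz
      rw [logPole_zero] at hy
      obtain ⟨r, -, hr⟩ := EReal.lt_iff_exists_real_btwn.1 hy
      have h1 : ∀ᶠ z' : Cn n in 𝓝 0, nsq z' < Real.exp (2 * r) := by
        apply (nsq_continuous (n := n)).continuousAt.eventually_lt_const
        rw [nsq_zero]; positivity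
      filter_upwards [h1] with z' hz'
      by_cases h0 : z' = 0
      · rw [h0, logPole_zero]; exact hy
      · rw [logPole_ne h0]
        refine lt_trans ?_ hr
        rw [EReal.coe_lt_coe_iff]
        have := Real.log_lt_log (nsq_pos h0) hz'
        rw [Real.log_exp] at this
        linarith
    · have h1 : ∀ᶠ z' : Cn n in 𝓝 z, z' ≠ 0 := isOpen_ne.mem_nhds hz
      have h2 : ContinuousAt (fun z' : Cn n => ((Real.log (nsq z') / 2 : ℝ) : EReal)) z := by
        apply continuous_coe_real_ereal.continuousAt.comp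
        exact ((nsq_continuous (n := n)).continuousAt.log (nsq_pos hz).ne').div_const 2
      rw [logPole_ne hz] at hy
      filter_upwards [h1, h2.eventually_lt_const hy] with z' h3 h4
      rw [logPole_ne h3]; exact h4
  · intro z w _ h hc hle
    by_cases hz : z = 0
    · rw [hz, logPole_zero]; exact bot_le
    · rw [logPole_ne hz, EReal.coe_le_coe_iff]
      set s : ℝ := Real.sqrt (nsq z) with hs
      have hspos : 0 < s := Real.sqrt_pos.2 (nsq_pos hz)
      have hs2 : s ^ 2 = nsq z := Real.sq_sqrt (nsq_nonneg z)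
      -- the linear functional ⟨·, z⟩ / |z|
      let L : Cn n → ℂ := fun y => (∑ j, (starRingEnd ℂ) (z j) * y j) / s
      have hLz : L z = s := by
        have h1 : ∑ j, (starRingEnd ℂ) (z j) * z j = ((s ^ 2 : ℝ) : ℂ) := by
          rw [hs2, nsq, Complex.ofReal_sum]
          apply Finset.sum_congr rfl
          intro j _
          rw [← Complex.normSq_eq_norm_sq, Complex.normSq_eq_conj_mul_self]
        simp only [L]
        rw [h1]; push_cast; field_simp
      have hLle : ∀ y, ‖L y‖ ^ 2 ≤ nsq y := by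
        intro y
        have h1 : ‖∑ j, (starRingEnd ℂ) (z j) * y j‖ ≤ ∑ j, ‖z j‖ * ‖y j‖ := by
          refine (norm_sum_le _ _).trans (le_of_eq ?_)
          apply Finset.sum_congr rfl
          intro j _
          rw [norm_mul, RCLike.norm_conj]
        have h2 : (∑ j, ‖z j‖ * ‖y j‖) ^ 2 ≤ nsq z * nsq y := by
          unfold nsq
          exact Finset.sum_mul_sq_le_sq_mul_sq _ _ _
        have h3 : ‖L y‖ = ‖∑ j, (starRingEnd ℂ) (z j) * y j‖ / s := by
          simp only [L]
          rw [norm_div, Complex.norm_real, Real.norm_of_nonneg hspos.le]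
        rw [h3, div_pow, div_le_iff₀ (by positivity), hs2]
        calc ‖∑ j, (starRingEnd ℂ) (z j) * y j‖ ^ 2 ≤ (∑ j, ‖z j‖ * ‖y j‖) ^ 2 :=
              pow_le_pow_left₀ (norm_nonneg _) h1 2
          _ ≤ nsq z * nsq y := h2
          _ = nsq y * nsq z := mul_comm _ _
      have hLcirc : ∀ θ : ℝ, L (circ z w θ) = L z + Complex.exp ((θ : ℂ) * Complex.I) * L w := by
        intro θ
        simp only [L, circ, Pi.add_apply, Pi.smul_apply, smul_eq_mul]
        rw [← mul_div_assoc, ← add_div, Finset.mul_sum, ← Finset.sum_add_distrib]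
        congr 1
        apply Finset.sum_congr rfl
        intro j _
        ring
      have hfin : Real.log (nsq z) / 2 = Real.log ‖L z‖ := by
        rw [hLz, Complex.norm_real, Real.norm_of_nonneg hspos.le, ← hs2, Real.log_pow]
        push_cast; ring
      rw [hfin]
      apply log_mean (L z) (L w) (by rw [hLz]; exact_mod_cast hspos.ne') h hc
      intro θ hθ hne
      rw [← hLcirc] at hne ⊢
      have h1 := hle θ hθ
      have h2 : circ z w θ ≠ 0 := by
        intro h0; apply hne; rw [h0]; simp [L]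
      rw [logPole_ne h2, EReal.coe_le_coe_iff] at h1
      refine le_trans ?_ h1
      have h3 := Real.log_le_log (by positivity) (hLle (circ z w θ))
      rw [Real.log_pow] at h3
      push_cast at h3
      linarith

/-! ### The unit ball -/

/-- Bounded strictly pseudoconvex domains with smooth boundary: a bounded connected open set
which is the sublevel set {ρ < 0} of a smooth strictly plurisubharmonic function ρ on a
neighbourhood U of the closure, with nonvanishing gradient on the boundary. -/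
def IsSmoothStrictlyPseudoconvex {n : ℕ} (Ω : Set (Cn n)) : Prop :=
  IsOpen Ω ∧ IsConnected Ω ∧ Bornology.IsBounded Ω ∧
  ∃ (U : Set (Cn n)) (ρ : Cn n → ℝ), IsOpen U ∧ closure Ω ⊆ U ∧ ContDiffOn ℝ ∞ ρ U ∧
    (∀ z ∈ U, (complexHessian ρ z).PosDef) ∧ Ω = {z | z ∈ U ∧ ρ z < 0} ∧
    ∀ z ∈ frontier Ω, fderiv ℝ ρ z ≠ 0

theorem nsq_smul {n : ℕ} (t : ℝ) (z : Cn n) : nsq (t • z) = t ^ 2 * nsq z := by
  unfold nsq
  rw [Finset.mul_sum]
  apply Finset.sum_congr rfl
  intro j _
  rw [Pi.smul_apply, norm_smul, mul_pow, Real.norm_eq_abs, sq_abs]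

theorem closure_B {n : ℕ} : closure (B n) = KR n 1 := by
  apply Subset.antisymm
  · exact closure_minimal (fun z hz => le_of_lt (show nsq z < 1 from hz)) (KR_closed n 1)
  · intro z hz
    have h1 : Tendsto (fun t : ℝ => t • z) (𝓝[<] 1) (𝓝 ((1 : ℝ) • z)) := by
      apply Tendsto.mono_left _ nhdsWithin_le_nhds
      exact (continuous_id.smul continuous_const).tendsto 1
    rw [one_smul] at h1
    apply mem_closure_of_tendsto h1
    filter_upwards [Ioo_mem_nhdsLT (show (0 : ℝ) < 1 by norm_num)] with t ht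
    show nsq (t • z) < 1
    rw [nsq_smul]
    have h2 : nsq z ≤ 1 := hz
    have h3 := nsq_nonneg z
    have h4 : t ^ 2 < 1 := by nlinarith [ht.1, ht.2]
    nlinarith [sq_nonneg t]

theorem frontier_B {n : ℕ} : frontier (B n) = {z | nsq z = 1} := by
  rw [(B_open n).frontier_eq, closure_B]
  ext z
  constructor
  · rintro ⟨h1, h2⟩
    have h3 : ¬ nsq z < 1 := h2
    push Not at h3
    exact le_antisymm h1 h3
  · intro h
    have h' : nsq z = 1 := h
    exact ⟨h'.le, fun h2 => absurd (show nsq z < 1 from h2) (by rw [h']; exact lt_irrefl 1)⟩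

theorem nsq_contDiff {n : ℕ} : ContDiff ℝ ∞ (nsq (n := n)) := by
  unfold nsq
  apply ContDiff.sum
  intro j _
  exact (contDiff_norm_sq ℝ).comp (contDiff_apply ℝ ℂ j)

theorem hess_rho {n : ℕ} (z v w : Cn n) : hess (fun z => nsq z - 1) z v w = 2 * ip w v := by
  have hsm : ContDiff ℝ 2 (fun z : Cn n => nsq z - 1) :=
    contDiff_infty.1 (nsq_contDiff.sub contDiff_const) 2
  have h1 : ∀ z : Cn n, fderiv ℝ (fun z => nsq z - 1) z = (2 : ℝ) • ipL z := fun z =>
    ((nsq_hasFDerivAt z).sub_const 1).fderiv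
  have h2 : HasFDerivAt (fderiv ℝ (fun z : Cn n => nsq z - 1))
      (fderiv ℝ (fderiv ℝ (fun z : Cn n => nsq z - 1)) z) z := by
    have : ContDiffAt ℝ 1 (fderiv ℝ (fun z : Cn n => nsq z - 1)) z :=
      hsm.contDiffAt.fderiv_right (by norm_num)
    exact (this.differentiableAt (by norm_num)).hasFDerivAt
  have h3 := h2.clm_apply (hasFDerivAt_const w z)
  have h4 : (fun y : Cn n => fderiv ℝ (fun z => nsq z - 1) y w) = fun y => 2 * ip y w := by
    funext y
    rw [h1 y]
    simp [ipL_apply]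
  have h5 : HasFDerivAt (fun y : Cn n => 2 * ip y w) ((2 : ℝ) • ipL w) z :=
    (ip_hasFDerivAt w z).const_mul 2
  rw [h4] at h3
  have h6 := h3.unique h5
  have h7 := congrArg (fun L : Cn n →L[ℝ] ℝ => L v) h6
  simp [ipL_apply] at h7
  unfold hess
  exact h7

theorem complexHessian_rho {n : ℕ} (z : Cn n) :
    complexHessian (fun z : Cn n => nsq z - 1) z = 1 := by
  ext j l
  unfold complexHessian
  simp only [Matrix.of_apply]
  rw [hess_rho, hess_rho, hess_rho, hess_rho]
  by_cases hjl : j = l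
  · subst hjl
    rw [ip_eR, ip_eI, ip_eR, ip_eI]
    simp [eR, eI]
    norm_num
  · rw [ip_eR, ip_eI, ip_eR, ip_eI]
    simp [eR, eI, Matrix.one_apply_ne hjl, Pi.single_eq_of_ne hjl]

theorem ball_domain (n : ℕ) : IsSmoothStrictlyPseudoconvex (B n) := by
  refine ⟨B_open n, ?_, ?_, univ, fun z => nsq z - 1, isOpen_univ, subset_univ _, ?_, ?_, ?_, ?_⟩
  · have h1 : StarConvex ℝ (0 : Cn n) (B n) := by
      rw [starConvex_zero_iff]
      intro z hz a ha0 ha1
      show nsq (a • z) < 1
      rw [nsq_smul]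
      have h2 : nsq z < 1 := hz
      have h3 := nsq_nonneg z
      have h4 : a ^ 2 ≤ 1 := by nlinarith
      nlinarith [sq_nonneg a]
    have h0 : (0 : Cn n) ∈ B n := by
      show nsq (0 : Cn n) < 1
      rw [nsq_zero]; norm_num
    exact (h1.isPathConnected h0).isConnected
  · exact (KR_compact n 1).isBounded.subset (fun z hz => le_of_lt (show nsq z < 1 from hz))
  · exact (nsq_contDiff.sub contDiff_const).contDiffOn
  · intro z _
    rw [complexHessian_rho]
    exact Matrix.PosDef.one
  · ext z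
    constructor
    · intro h
      refine ⟨mem_univ _, ?_⟩
      have : nsq z < 1 := h
      linarith
    · rintro ⟨-, h⟩
      show nsq z < 1
      linarith
  · intro z hz h0
    rw [frontier_B] at hz
    have h1 : fderiv ℝ (fun z => nsq z - 1) z = (2 : ℝ) • ipL z :=
      ((nsq_hasFDerivAt z).sub_const 1).fderiv
    rw [h1] at h0
    have h2 := congrArg (fun L : Cn n →L[ℝ] ℝ => L z) h0
    simp [ipL_apply, ip_self] at h2
    have h3 : nsq z = 1 := hz
    rw [h3] at h2
    norm_num at h2

/-! ### The theorem -/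

/-- Admissible data for the flow: a bounded strictly pseudoconvex domain Ω with smooth boundary,
a time T > 0, a plurisubharmonic function u₀ on an open neighbourhood V of the closure of Ω, and
boundary data φ, smooth on the closure of Ω times [0,T), equal to u₀ on the boundary of Ω at all
times. -/
structure Admissible {n : ℕ} (Ω : Set (Cn n)) (T : ℝ) (V : Set (Cn n)) (u₀ : Cn n → EReal)
    (φ : Cn n → ℝ → ℝ) : Prop where
  domain : IsSmoothStrictlyPseudoconvex Ω
  time : 0 < T
  isOpen : IsOpen V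
  nhd : closure Ω ⊆ V
  psh : IsPSH V u₀
  smooth : ContDiffOn ℝ ∞ (fun p : Cn n × ℝ => φ p.1 p.2) (closure Ω ×ˢ Ico 0 T)
  boundary : ∀ z ∈ frontier Ω, ∀ t ∈ Ico 0 T, ((φ z t : ℝ) : EReal) = u₀ z

/-- Solutions of the flow with initial datum u₀ and boundary data φ. -/
structure IsFlowSolution {n : ℕ} (Ω : Set (Cn n)) (T : ℝ) (u₀ : Cn n → EReal)
    (φ : Cn n → ℝ → ℝ) (u : Cn n → ℝ → ℝ) : Prop where
  smooth : ContDiffOn ℝ ∞ (fun p : Cn n × ℝ => u p.1 p.2) (closure Ω ×ˢ Ioo 0 T)
  strictly_psh : ∀ t ∈ Ioo 0 T, ∀ z ∈ Ω, (complexHessian (fun z => u z t) z).PosDef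
  flow : ∀ t ∈ Ioo 0 T, ∀ z ∈ Ω,
    deriv (fun s => u z s) t = Real.log (complexHessian (fun z => u z t) z).det.re
  boundary : ∀ t ∈ Ioo 0 T, ∀ z ∈ frontier Ω, u z t = φ z t
  initial : ∀ z ∈ closure Ω, Tendsto (fun t => ((u z t : ℝ) : EReal)) (𝓝[>] 0) (𝓝 (u₀ z))

/-- In every dimension n ≥ 1 and for every T > 0 the flow on the unit ball with initial datum
log|z| and zero boundary data has no solution. -/
theorem result (n : ℕ) (hn : 1 ≤ n) (T : ℝ) (hT : 0 < T) :
    Admissible (B n) T univ (logPole (n := n)) (fun _ _ => 0) ∧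
      ¬ ∃ u : Cn n → ℝ → ℝ, IsFlowSolution (B n) T logPole (fun _ _ => 0) u := by
  refine ⟨⟨ball_domain n, hT, isOpen_univ, subset_univ _, psh_logPole n hn, contDiffOn_const,
    ?_⟩, ?_⟩
  · intro z hz t _
    rw [frontier_B] at hz
    have hz1 : nsq z = 1 := hz
    have hz0 : z ≠ 0 := by
      intro h0; rw [h0, nsq_zero] at hz1; norm_num at hz1
    rw [logPole_ne hz0, hz1]
    simp
  · rintro ⟨u, hu⟩
    have hcore : Core n T (fun p => u p.1 p.2) := by
      refine ⟨?_, ?_, hu.strictly_psh, hu.flow, ?_, ?_⟩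
      · rw [← closure_B]; exact hu.smooth.continuousOn
      · exact contDiffOn_infty.1 (hu.smooth.mono (Set.prod_mono subset_closure le_rfl)) 2
      · intro t ht z hz
        exact hu.boundary t ht z (by rw [frontier_B]; exact hz)
      · intro z hz hz1
        have h1 := hu.initial z (subset_closure (show z ∈ B n from hz1))
        rw [logPole_ne hz] at h1
        exact EReal.tendsto_coe.1 h1
    exact hcore.false hn hT

end Pool.Agent.Results.MP_8f0dee_an.LogPole
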